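import Mathlib

/-!
# Project KC (helper93, MP_23b0f8_an, Q1): the diffraction condition does not imply the Kesten condition

Counterexamples: all rational `D`. Then the projected staircase `Λ` is a relatively dense subset of a
lattice `h ℤ`, so its autocorrelation `η` lives on `h ℤ` and its diffraction measure `δ` has atoms at
all points `k / h`; but `D` is not in `ℤ γ + ℤ`.

Piece `XXX`: file `Pool/Agent/W2<you>/KC/Xxx.lean`, theorem `p_xxx : P_XXX`, import only this file (and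
files of the library).
-/

set_option autoImplicit false

open MeasureTheory Filter Topology
open scoped FourierTransform SchwartzMap

namespace Pool.Agent.W2helper93.KC

/-- the pairs of points of `Λ` in `[-T, T]` -/
def prs (Λ : Set ℝ) (T : ℝ) : Set (ℝ × ℝ) :=
  {z | z.1 ∈ Λ ∧ z.2 ∈ Λ ∧ |z.1| ≤ T ∧ |z.2| ≤ T}

/-- `η` is the autocorrelation of `Λ`: the vague limit of the measures
`(2 T)⁻¹ ∑ δ_{x - y}`, the sum over `x, y ∈ Λ ∩ [-T, T]`. -/
structure IsAutocorr (Λ : Set ℝ) (η : Measure ℝ) : Prop where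
  fin : IsLocallyFiniteMeasure η
  lim : ∀ f : ℝ → ℝ, Continuous f → HasCompactSupport f →
    Tendsto (fun T : ℝ => (∑ᶠ z ∈ prs Λ T, f (z.1 - z.2)) / (2 * T)) atTop (𝓝 (∫ x, f x ∂η))

/-- The positive measure `δ` is the Fourier transform of the measure `η`. -/
def IsFourier (η δ : Measure ℝ) : Prop :=
  ∀ φ : 𝓢(ℝ, ℂ), Integrable φ δ ∧ Integrable (𝓕 φ : 𝓢(ℝ, ℂ)) η ∧
    ∫ x, (𝓕 φ : 𝓢(ℝ, ℂ)) x ∂η = ∫ s, φ s ∂δ

/-- the numbers `b ∈ U` with `b + k ∈ U` and `|b|, |b + k| ≤ T` -/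
def prz (U : Set ℤ) (k : ℤ) (T : ℝ) : Set ℤ :=
  {b | b ∈ U ∧ b + k ∈ U ∧ |(b : ℝ)| ≤ T ∧ |((b + k : ℤ) : ℝ)| ≤ T}

/-- the frequencies of the differences exist -/
def Freq (U : Set ℤ) (ν : ℤ → ℝ) : Prop :=
  ∀ k, Tendsto (fun T : ℝ => ((prz U k T).ncard : ℝ) / (2 * T)) atTop (𝓝 (ν k))

/-- The steps are `A` or `B`; the step number `n` is `B` if `x₀ + n γ` modulo one is in `[0, D)`. -/
def IsSeq (D γ x₀ : ℝ) (A B : ℤ) (u : ℤ → ℤ) : Prop :=
  u 0 = 0 ∧ ∀ n : ℤ, u (n + 1) = u n + if Int.fract (x₀ + n * γ) < D then B else A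

/-- **PIECE HK (about 70 lines).** `u n + k ∈ U` depends only on the position `x₀ + n γ` on the
circle, by finitely many arcs. Proof. `u` is strictly increasing. `u n + k = u m` implies
`|m - n| ≤ |k|`. For `j ≥ 0`: `u (n + j) - u n = ∑_{i<j} g (x₀ + (n + i) γ)`, for `j ≥ 0`:
`u n - u (n - j) = ∑_{1≤i≤j} g (x₀ + (n - i) γ)`, with `g x = if fract x < D then B else A`. So
`u n + k ∈ U ↔ ∃ j, |j| ≤ |k| ∧ w j (x₀ + n γ) = k` with `w j x` the sum as a function of `x`; `w j` is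
periodic. `S` is the image in the circle of the finite set of the `-iγ`, `D - iγ`, `|i| ≤ |k|`; off `S`
all the summands are locally constant. `H z = if ∃ j, |j| ≤ |k| ∧ w j (rep z) = k then 1 else 0`,
`rep` a representative (`AddCircle.equivIco` or lift by periodicity). Continuity at `z`: locally
constant. Measurable: constant near the points off the finite set `S`. -/
def P_HK : Prop := ∀ (D γ x₀ : ℝ) (A B : ℤ) (u : ℤ → ℤ), 0 < D → D < 1 → 0 < A → 0 < B →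
  IsSeq D γ x₀ A B u → ∀ k : ℤ, ∃ (H : AddCircle (1 : ℝ) → ℂ) (S : Set (AddCircle (1 : ℝ))),
    Measurable H ∧ S.Finite ∧ S.Nonempty ∧ (∀ z, ‖H z‖ ≤ 1) ∧ (∀ z ∉ S, ContinuousAt H z) ∧
    (∀ n : ℤ, u n + k ∈ Set.range u → H ((x₀ + n * γ : ℝ) : AddCircle (1 : ℝ)) = 1) ∧
    ∀ n : ℤ, u n + k ∉ Set.range u → H ((x₀ + n * γ : ℝ) : AddCircle (1 : ℝ)) = 0

open Classical in
/-- **PIECE CONV (about 120 lines, elementary limits).** Proof. `u` is strictly increasing,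
`u 0 = 0`, `u N / N → m`, `- u (-N) / N → m`. For `T > 0` let `N₊ = #{n ≥ 0 : u n ≤ T}` and
`N₋ = #{n ≥ 1 : - u (-n) ≤ T}`; then `N± / T → 1 / m`. `(prz (range u) k T).ncard` differs from
`∑_{n < N₊} e n + ∑_{1 ≤ n ≤ N₋} e (-n)`, `e n = 1` if `u n + k ∈ range u` and else `0`, by at most
`2 |k| + 2` (the conditions `|b + k| ≤ T`). The averages of `e` converge to `α`, `α'`, so the limit is
`(α + α') / (2 m)`. -/
def P_CONV : Prop := ∀ (u : ℤ → ℤ) (m : ℝ) (k : ℤ) (α α' : ℝ), StrictMono u → u 0 = 0 → 0 < m →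
  Tendsto (fun N : ℕ => (u N : ℝ) / N) atTop (𝓝 m) →
  Tendsto (fun N : ℕ => (-u (-N) : ℝ) / N) atTop (𝓝 m) →
  Tendsto (fun N : ℕ => (∑ n ∈ Finset.range N,
    if u n + k ∈ Set.range u then (1 : ℝ) else 0) / N) atTop (𝓝 α) →
  Tendsto (fun N : ℕ => (∑ n ∈ Finset.range N,
    if u (-n) + k ∈ Set.range u then (1 : ℝ) else 0) / N) atTop (𝓝 α') →
  Tendsto (fun T : ℝ => ((prz (Set.range u) k T).ncard : ℝ) / (2 * T)) atTop
    (𝓝 ((α + α') / (2 * m)))

/-- the autocorrelation as a sum of point masses -/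
noncomputable def eta (h : ℝ) (ν : ℤ → ℝ) : Measure ℝ :=
  Measure.sum fun k : ℤ => ENNReal.ofReal (ν k / h) • Measure.dirac (h * k)

/-- **PIECE AUTO (about 100 lines).** Proof. `0 ≤ ν k ≤ 2` (at most `2 T + 1` numbers). Locally
finite: a bounded interval contains finitely many `h k`. For `f` with support in `[-R, R]` both sides
are finite sums over `|k| ≤ R / h`: `∫ f ∂η = ∑ ν k / h * f (h k)` and the sum over the pairs is
`∑_k f (h k) * (prz U k (T / h)).ncard` (the pairs `(h (b + k), h b)`; `prs` is finite), divided by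
`2 T = h * (2 (T / h))`. -/
def P_AUTO : Prop := ∀ (U : Set ℤ) (ν : ℤ → ℝ) (h : ℝ), 0 < h → Freq U ν →
  IsAutocorr {x | ∃ b ∈ U, x = h * b} (eta h ν)

/-- **PIECE HERG (about 100 lines, Herglotz).** Proof. For `T ≥ 1` let `ρ_T` be the measure on the circle
with the density `(2 T)⁻¹ |∑_{b ∈ U, |b| ≤ T} e(b θ)|²`; its Fourier coefficients are
`(prz U k T).ncard / (2 T)` (and its mass is bounded). Instance `CompactSpace (ProbabilityMeasure E)` for a
compact metric space `E` (`Mathlib/MeasureTheory/Measure/Prokhorov.lean`): normalise (if `ν 0 = 0` then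
`ρ = 0` works since `|ν k| ≤ ν 0`), take a cluster point for `T = 1, 2, ...`. -/
def P_HERG : Prop := ∀ (U : Set ℤ) (ν : ℤ → ℝ), Freq U ν →
  ∃ ρ : Measure (AddCircle (1 : ℝ)), IsFiniteMeasure ρ ∧
    ∀ k : ℤ, ∫ z, (fourier k z : ℂ) ∂ρ = (ν k : ℂ)

/-- **PIECE POIS (about 120 lines, Poisson summation).** Proof. Let `δ` be `h⁻²` times the measure
`B ↦ ∫ #{j : ℤ | (rep z + j) / h ∈ B} ∂ρ(z)`, `rep z ∈ [0, 1)` (e.g. `δ = h⁻² • ∑_j map (fun z => (rep z
+ j) / h) ρ`, `Measure.sum`). With `φ_h s = φ (s / h)` (Schwartz, e.g. `SchwartzMap.compCLMOfContinuousLinearEquiv`)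
`SchwartzMap.tsum_eq_tsum_fourier`: `∑_j φ_h (x + j) = ∑_k 𝓕 φ_h k * fourier k x`, `𝓕 φ_h k =
h * 𝓕 φ (h k)`. So `∫ φ ∂δ = h⁻² ∑_k h 𝓕 φ (h k) ν k = ∫ 𝓕 φ ∂η`; `|ν k| ≤ ρ univ`; all sums are dominated
by `C / (1 + k²)`. -/
def P_POIS : Prop := ∀ (ν : ℤ → ℝ) (h : ℝ) (ρ : Measure (AddCircle (1 : ℝ))), 0 < h →
  (∀ k, 0 ≤ ν k) → IsFiniteMeasure ρ → (∀ k : ℤ, ∫ z, (fourier k z : ℂ) ∂ρ = (ν k : ℂ)) →
  ∃ δ : Measure ℝ, IsFourier (eta h ν) δ

end Pool.Agent.W2helper93.KC
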