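import Pool.Agent.W2helper93.KC.Stm

/-!
# Project KC, the piece POIS with an explicit measure
-/

set_option autoImplicit false

open MeasureTheory Filter Topology
open scoped FourierTransform SchwartzMap

namespace Pool.Agent.W2helper93.KC

/-- the representative in `[0, 1)` -/
noncomputable def rep (z : AddCircle (1 : ℝ)) : ℝ := (AddCircle.equivIco (1 : ℝ) 0 z : ℝ)

/-- the diffraction measure -/
noncomputable def del (h : ℝ) (ρ : Measure (AddCircle (1 : ℝ))) : Measure ℝ :=
  ENNReal.ofReal (h⁻¹ ^ 2) • Measure.sum fun j : ℤ => ρ.map fun z => (rep z + j) / h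

/-- PIECE POIS, explicit form (same proof) -/
def P_POIS2 : Prop := ∀ (ν : ℤ → ℝ) (h : ℝ) (ρ : Measure (AddCircle (1 : ℝ))), 0 < h →
  (∀ k, 0 ≤ ν k) → IsFiniteMeasure ρ → (∀ k : ℤ, ∫ z, (fourier k z : ℂ) ∂ρ = (ν k : ℂ)) →
  IsFourier (eta h ν) (del h ρ)

end Pool.Agent.W2helper93.KC
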